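import Mathlib
import Pool.Agent.Q249.LegendreSuper
import Pool.Agent.Q249.TrinomialRec

/-!
# MP_fcf7f4_nt: the supercongruence for `∑ T_k(3,3) M_k(3,3) / (-3)^k`

We prove the full statement of Q1: with
`S(p) = ∑_{k<p} (-3)^{-k} T_k(3,3) M_k(3,3)` one has, for every prime `p > 3`,
`S(p) ≡ 2 p^2 (mod p^3)` if `p ≡ 1 (mod 3)` and `S(p) ≡ p^3 - p^2 - 3p (mod p^4)` if
`p ≡ 2 (mod 3)`.

Proof.  The three term recurrence of `T_n` gives the closed form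
`2 (n+1) (-3)^n S_n = n (n+1) T_n^2 - 3 n (2n+1) T_n T_{n-1} - 3 n^2 T_{n-1}^2`, and
`T_n = σ^n L_n(y)`, where `y` is a primitive sixth root of unity, `σ = 2y - 1 = √-3` and `L_n` is
the shifted Legendre polynomial.  The coefficients of `L_{p-1}` and `L_p` are computed modulo `p^3`
and the symmetries `y ↦ 1 - y` and `k ↦ p - k` determine `T_p`, `T_{p-1}` well enough.
-/

namespace Pool.Agent.Results.MP_fcf7f4_nt.Supercongruence

open Finset Q249.LegendreSuper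

/-- `T_n(b,c) = ∑_{j ≤ n/2} C(n,2j) C(2j,j) b^(n-2j) c^j`. -/
def T (b c : ℤ) (n : ℕ) : ℤ :=
  ∑ j ∈ range (n/2+1), (n.choose (2*j) : ℤ) * ((2*j).choose j : ℤ) * b^(n-2*j) * c^j

/-- `M_n(b,c) = ∑_{j ≤ n/2} C(n,2j) C_j b^(n-2j) c^j`, `C_j` the Catalan numbers. -/
def M (b c : ℤ) (n : ℕ) : ℤ :=
  ∑ j ∈ range (n/2+1), (n.choose (2*j) : ℤ) * (catalan j : ℤ) * b^(n-2*j) * c^j

/-- `S(p) = ∑_{k=0}^{p-1} T_k(3,3) M_k(3,3) / (-3)^k`. -/
def S (p : ℕ) : ℚ := ∑ k ∈ range p, (T 3 3 k : ℚ) * (M 3 3 k : ℚ) / (-3)^k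

theorem T_cast {R : Type*} [CommRing R] (n : ℕ) : ((T 3 3 n : ℤ) : R) = TR (3:R) 3 n := by
  unfold T TR
  push_cast
  rfl

theorem M_cast {R : Type*} [CommRing R] (n : ℕ) : ((M 3 3 n : ℤ) : R) = MR (3:R) 3 n := by
  unfold M MR
  push_cast
  rfl

/-- `ℤ/p³[y]/(y² - y + 1)` -/
abbrev Q (p : ℕ) := QuadraticAlgebra (ZMod (p^3)) (-1) 1

/-- the sixth root of unity -/
def yy (p : ℕ) : Q p := ⟨0, 1⟩

theorem yy_sq (p : ℕ) : (yy p)^2 = yy p - 1 := by
  rw [pow_two]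
  unfold yy
  ext <;> simp [QuadraticAlgebra.re_one, QuadraticAlgebra.im_one]

theorem zero_of_cast (p : ℕ) (n : ℤ) (h : (n : Q p) = 0) : (p:ℤ)^3 ∣ n := by
  have h1 : ((n : Q p)).re = (0 : Q p).re := by rw [h]
  rw [QuadraticAlgebra.re_intCast, QuadraticAlgebra.re_zero] at h1
  have h2 := (CharP.intCast_eq_zero_iff (ZMod (p^3)) (p^3) n).1 h1
  exact_mod_cast h2

theorem p_cube (p : ℕ) : ((p : ℕ) : Q p)^3 = 0 := by
  have h : ((p^3 : ℕ) : Q p) = 0 := by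
    ext
    · rw [QuadraticAlgebra.re_natCast, QuadraticAlgebra.re_zero, ZMod.natCast_self]
    · rw [QuadraticAlgebra.im_natCast, QuadraticAlgebra.im_zero]
  exact_mod_cast h

/-- inverses of the numbers prime to `p` -/
def inv (p k : ℕ) : Q p := ⟨((k : ZMod (p^3)))⁻¹, 0⟩

theorem inv_spec (p : ℕ) (hp : p.Prime) (k : ℕ) (h1 : 1 ≤ k) (h2 : k < p) :
    ((k : ℕ) : Q p) * inv p k = 1 := by
  have hc : Nat.Coprime k (p^3) := by
    apply Nat.Coprime.pow_right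
    exact (Nat.coprime_comm.1 ((Nat.Prime.coprime_iff_not_dvd hp).2
      (fun h => by have := Nat.le_of_dvd (by omega) h; omega)))
  have h := ZMod.coe_mul_inv_eq_one k hc
  unfold inv
  ext
  · simp only [QuadraticAlgebra.re_mul, QuadraticAlgebra.re_natCast, QuadraticAlgebra.im_natCast,
      QuadraticAlgebra.re_one]
    rw [h]; ring
  · simp only [QuadraticAlgebra.im_mul, QuadraticAlgebra.re_natCast, QuadraticAlgebra.im_natCast,
      QuadraticAlgebra.im_one]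
    ring

theorem T_eq (p n : ℕ) : ((T 3 3 n : ℤ) : Q p) = (2 * yy p - 1)^n * L n (yy p) := by
  have hy := yy_sq p
  rw [T_cast, ← TR_eq_L]
  congr 1
  · linear_combination 4 * hy
  · linear_combination (3 - 4 * ((yy p)^2 - yy p)) * hy

/-- the power `(-3)^((p-1)/2)` -/
def E (p : ℕ) : ℤ := (-3)^((p-1)/2)

theorem sigma_pow (p : ℕ) (hodd : p % 2 = 1) :
    (2 * yy p - 1)^(p-1) = ((E p : ℤ) : Q p) := by
  have h : (2 * yy p - 1)^2 = (-3 : Q p) := by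
    linear_combination 4 * yy_sq p
  have h2 : p - 1 = 2 * ((p-1)/2) := by omega
  conv_lhs => rw [h2]
  rw [pow_mul, h]
  unfold E
  push_cast
  rfl

theorem yy_pow_six (p : ℕ) : (yy p)^6 = 1 := by
  have h := yy_sq p
  have h3 : (yy p)^3 = -1 := by linear_combination (yy p + 1) * h
  calc (yy p)^6 = ((yy p)^3)^2 := by ring
    _ = 1 := by rw [h3]; ring

theorem pow_mod_six {R : Type*} [CommRing R] (x : R) (hx : x^6 = 1) (n r : ℕ) (h : n % 6 = r) :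
    x^n = x^r := by
  have h3 : n = 6 * (n/6) + r := by omega
  rw [h3, pow_add, pow_mul, hx, one_pow, one_mul]

theorem pows_one (p : ℕ) (h : p % 6 = 1) : (yy p)^p = yy p ∧ (1 - yy p)^p = 1 - yy p := by
  have h1 := yy_pow_six p
  have hs := yy_sq p
  have h2 : (1 - yy p)^6 = 1 := by
    have : (1 - yy p) = - (yy p)^2 := by linear_combination hs
    rw [this]
    calc (-(yy p)^2)^6 = ((yy p)^6)^2 := by ring
      _ = 1 := by rw [h1]; ring
  constructor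
  · rw [pow_mod_six _ h1 p 1 h, pow_one]
  · rw [pow_mod_six _ h2 p 1 h, pow_one]

theorem pows_five (p : ℕ) (h : p % 6 = 5) : (yy p)^p = 1 - yy p ∧ (1 - yy p)^p = yy p := by
  have h1 := yy_pow_six p
  have hs := yy_sq p
  have h2 : (1 - yy p)^6 = 1 := by
    have : (1 - yy p) = - (yy p)^2 := by linear_combination hs
    rw [this]
    calc (-(yy p)^2)^6 = ((yy p)^6)^2 := by ring
      _ = 1 := by rw [h1]; ring
  have h4 : (yy p)^3 = -1 := by linear_combination (yy p + 1) * hs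
  have h5 : (1 - yy p)^3 = -1 := by
    linear_combination (2 - yy p) * hs
  constructor
  · rw [pow_mod_six _ h1 p 5 h]
    linear_combination (yy p)^2 * h4 - hs
  · rw [pow_mod_six _ h2 p 5 h]
    linear_combination (1 - yy p)^2 * h5 - hs

/-- `p ≡ 1 (mod 3)` -/
theorem case_one (p : ℕ) (hp : p.Prime) (h3 : 3 < p) (h : p % 3 = 1) :
    (p:ℤ)^2 ∣ T 3 3 p - 3 * E p ∧ (p:ℤ)^2 ∣ T 3 3 (p-1) - E p := by
  have hodd : p % 2 = 1 := hp.eq_two_or_odd.resolve_left (by omega)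
  have h6 : p % 6 = 1 := by omega
  obtain ⟨e1, e2⟩ := pows_one p h6
  obtain ⟨c1, c2⟩ := core (R := Q p) (inv := inv p) h3 hodd (p_cube p)
    (inv_spec p hp) (yy p) (yy_sq p) (by rw [e1, e2]; ring)
  have hs := yy_sq p
  have t1 := T_eq p p
  have t2 := T_eq p (p-1)
  have hE := sigma_pow p hodd
  have hpow : (2 * yy p - 1)^p = (2 * yy p - 1)^(p-1) * (2 * yy p - 1) := by
    rw [← pow_succ]; congr 1; omega
  rw [hpow, hE, c2, e1, e2] at t1
  rw [hE, c1, e2] at t2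
  have hpL : ((p : ℕ) : Q p) * l2 p (inv p) (yy p) = 0 := by
    unfold l2
    linear_combination (∑ k ∈ Ico 1 p, (inv p k)^2 * (yy p)^k) * p_cube p
  have hp0 : (p:ℤ) ≠ 0 := by exact_mod_cast hp.ne_zero
  constructor
  · apply Int.dvd_of_mul_dvd_mul_left hp0
    have := zero_of_cast p (p * (T 3 3 p - 3 * E p)) (by
      push_cast
      rw [t1]
      linear_combination ((E p : ℤ) : Q p) * (2 * yy p - 1) * (-yy p) * hpL
        + (p : Q p) * ((E p : ℤ) : Q p) * (-4) * hs)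
    calc (p:ℤ) * p^2 = p^3 := by ring
      _ ∣ _ := this
  · apply Int.dvd_of_mul_dvd_mul_left hp0
    have := zero_of_cast p (p * (T 3 3 (p-1) - E p)) (by
      push_cast
      rw [t2]
      linear_combination ((E p : ℤ) : Q p) * (-(1 + (1 - yy p))) * hpL)
    calc (p:ℤ) * p^2 = p^3 := by ring
      _ ∣ _ := this

/-- `p ≡ 2 (mod 3)` -/
theorem case_two (p : ℕ) (hp : p.Prime) (h3 : 3 < p) (h : p % 3 = 2) :
    (p:ℤ)^2 ∣ T 3 3 p + 3 * E p ∧ (p:ℤ)^3 ∣ T 3 3 p - T 3 3 (p-1) + 4 * E p := by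
  have hodd : p % 2 = 1 := hp.eq_two_or_odd.resolve_left (by omega)
  have h6 : p % 6 = 5 := by omega
  obtain ⟨e1, e2⟩ := pows_five p h6
  obtain ⟨c1, c2⟩ := core (R := Q p) (inv := inv p) h3 hodd (p_cube p)
    (inv_spec p hp) (yy p) (yy_sq p) (by rw [e1, e2]; ring)
  have hs := yy_sq p
  have t1 := T_eq p p
  have t2 := T_eq p (p-1)
  have hE := sigma_pow p hodd
  have hpow : (2 * yy p - 1)^p = (2 * yy p - 1)^(p-1) * (2 * yy p - 1) := by
    rw [← pow_succ]; congr 1; omega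
  rw [hpow, hE, c2, e1, e2] at t1
  rw [hE, c1, e2] at t2
  have hpL : ((p : ℕ) : Q p) * l2 p (inv p) (yy p) = 0 := by
    unfold l2
    linear_combination (∑ k ∈ Ico 1 p, (inv p k)^2 * (yy p)^k) * p_cube p
  have hp0 : (p:ℤ) ≠ 0 := by exact_mod_cast hp.ne_zero
  constructor
  · apply Int.dvd_of_mul_dvd_mul_left hp0
    have := zero_of_cast p (p * (T 3 3 p + 3 * E p)) (by
      push_cast
      rw [t1]
      linear_combination ((E p : ℤ) : Q p) * (2 * yy p - 1) * (yy p - 1) * hpL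
        + (p : Q p) * ((E p : ℤ) : Q p) * 4 * hs)
    calc (p:ℤ) * p^2 = p^3 := by ring
      _ ∣ _ := this
  · exact zero_of_cast p (T 3 3 p - T 3 3 (p-1) + 4 * E p) (by
      push_cast
      rw [t1, t2]
      linear_combination ((E p : ℤ) : Q p) * (4 + 2 * l2 p (inv p) (yy p)) * hs)

/-- divisibility of numerators -/
theorem num_dvd (q : ℚ) (D Z m : ℤ) (h : q * D = Z) (hc : IsCoprime m D) (hm : m ∣ Z) :
    m ∣ q.num := by
  have h1 : q.num * D = Z * q.den := by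
    have hq : (q.den : ℚ) ≠ 0 := by exact_mod_cast q.den_nz
    have h2 : (q.num : ℚ) = q * q.den := by
      exact (Rat.mul_den_eq_num q).symm
    have h3 : ((q.num * D : ℤ) : ℚ) = ((Z * q.den : ℤ) : ℚ) := by
      push_cast
      rw [h2, ← h]; ring
    exact_mod_cast h3
  have h4 : m ∣ q.num * D := by
    rw [h1]; exact Dvd.dvd.mul_right hm _
  exact hc.dvd_of_dvd_mul_right h4

theorem S_closed (p : ℕ) (hp : 1 ≤ p) :
    S p * ((2 * ((p:ℤ)+1) * (-3)^p : ℤ) : ℚ) = ((p * (((p:ℤ)+1) * (T 3 3 p)^2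
      - 3 * (2*p+1) * T 3 3 p * T 3 3 (p-1) - 3 * p * (T 3 3 (p-1))^2) : ℤ) : ℚ) := by
  obtain ⟨m, rfl⟩ : ∃ m, p = m + 1 := ⟨p-1, by omega⟩
  have h := closed_form m
  have hS : S (m+1) = ∑ k ∈ range (m+1), TR (3:ℚ) 3 k * MR (3:ℚ) 3 k / (-3)^k := by
    unfold S
    refine sum_congr rfl fun k _ => ?_
    rw [← T_cast, ← M_cast]
  rw [hS]
  rw [← T_cast (R := ℚ) (m+1), ← T_cast (R := ℚ) m] at h
  rw [show m + 1 - 1 = m by omega]
  push_cast
  linear_combination h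

theorem coprime_D (p : ℕ) (hp : p.Prime) (h3 : 3 < p) (k : ℕ) :
    IsCoprime ((p:ℤ)^k) (2 * ((p:ℤ)+1) * (-3)^p) := by
  apply IsCoprime.pow_left
  have hpi : Prime (p:ℤ) := Nat.prime_iff_prime_int.1 hp
  have hirr : Irreducible (p:ℤ) := hpi.irreducible
  have c1 : IsCoprime (p:ℤ) 2 := by
    rw [hirr.coprime_iff_not_dvd]
    intro hd
    have := Int.le_of_dvd (by norm_num) hd
    omega
  have c2 : IsCoprime (p:ℤ) ((p:ℤ)+1) := ⟨-1, 1, by ring⟩
  have c3 : IsCoprime (p:ℤ) (-3) := by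
    rw [IsCoprime.neg_right_iff, hirr.coprime_iff_not_dvd]
    intro hd
    have := Int.le_of_dvd (by norm_num) hd
    omega
  exact (c1.mul_right c2).mul_right (c3.pow_right)

theorem E_sq (p : ℕ) (hodd : p % 2 = 1) : (-3:ℤ)^p = -3 * (E p)^2 := by
  unfold E
  rw [← pow_mul]
  conv_lhs => rw [show p = (p-1)/2 * 2 + 1 by omega]
  rw [pow_succ]; ring

/-- **MP_fcf7f4_nt, Q1.** -/
theorem result (p : ℕ) (hp : p.Prime) (h3 : 3 < p) :
    (p % 3 = 1 → (p:ℤ)^3 ∣ (S p - 2 * (p:ℚ)^2).num) ∧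
    (p % 3 = 2 → (p:ℤ)^4 ∣ (S p - ((p:ℚ)^3 - (p:ℚ)^2 - 3 * (p:ℚ))).num) := by
  have hodd : p % 2 = 1 := hp.eq_two_or_odd.resolve_left (by omega)
  have hcl := S_closed p (by omega)
  have hE := E_sq p hodd
  constructor
  · intro h
    obtain ⟨⟨a, ha⟩, ⟨b, hb⟩⟩ := case_one p hp h3 h
    have ha' : T 3 3 p = 3 * E p + p^2 * a := by linarith
    have hb' : T 3 3 (p-1) = E p + p^2 * b := by linarith
    apply num_dvd _ (2 * ((p:ℤ)+1) * (-3)^p)
      (p * (((p:ℤ)+1) * (T 3 3 p)^2 - 3 * (2*p+1) * T 3 3 p * T 3 3 (p-1)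
        - 3 * p * (T 3 3 (p-1))^2) - 2 * p^2 * (2 * ((p:ℤ)+1) * (-3)^p)) _ _
      (coprime_D p hp h3 3) _
    · rw [sub_mul, hcl]; push_cast; ring
    · rw [hE, ha', hb']
      exact ⟨-3*a*b*p^2 - 6*a*b*p^3 + 3*a*E p + a^2*p^2 + a^2*p^3 - 9*b*E p - 24*b*E p*p
        - 3*b^2*p^3 + 12*(E p)^2, by ring⟩
  · intro h
    obtain ⟨⟨a, ha⟩, ⟨b, hb⟩⟩ := case_two p hp h3 h
    have ha' : T 3 3 p = -3 * E p + p^2 * a := by linarith
    have hb' : T 3 3 (p-1) = E p + p^2 * a - p^3 * b := by linarith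
    apply num_dvd _ (2 * ((p:ℤ)+1) * (-3)^p)
      (p * (((p:ℤ)+1) * (T 3 3 p)^2 - 3 * (2*p+1) * T 3 3 p * T 3 3 (p-1)
        - 3 * p * (T 3 3 (p-1))^2) - (p^3 - p^2 - 3*p) * (2 * ((p:ℤ)+1) * (-3)^p)) _ _
      (coprime_D p hp h3 4) _
    · rw [sub_mul, hcl]; push_cast; ring
    · rw [hE, ha', hb']
      exact ⟨3*a*b*p^2 + 12*a*b*p^3 - 2*a^2*p - 8*a^2*p^2 - 9*b*E p - 12*b*E p*p
        - 3*b^2*p^4 + 6*(E p)^2, by ring⟩

end Pool.Agent.Results.MP_fcf7f4_nt.Supercongruence
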